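import Mathlib
import Pool.Agent.Work.MP_1ed552_co.Pack

/-!
# MP_1ed552_co: list packings of planar triangle-free graphs

Every planar triangle-free graph has fractional list packing number at most `4`; in fact from any
lists of size `4` (colours of any type) one can choose four proper list colourings which use every
colour of every list exactly once (an integral list packing).
-/

set_option autoImplicit false

namespace Pool.Agent.Results.MP_1ed552_co.ListPacking

/-- `H` is a minor of `G`: there are pairwise disjoint connected branch sets `f i`, one for each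
vertex `i` of `H`, with an edge of `G` between `f i` and `f j` whenever `i`, `j` are adjacent. -/
def IsMinor {ι V : Type} (H : SimpleGraph ι) (G : SimpleGraph V) : Prop :=
  ∃ f : ι → Set V, (∀ i, (G.induce (f i)).Connected) ∧ (∀ i j, i ≠ j → Disjoint (f i) (f j)) ∧
    ∀ i j, H.Adj i j → ∃ a ∈ f i, ∃ b ∈ f j, G.Adj a b

/-- Planar graphs, by the theorem of Wagner: no minor `K_5` and no minor `K_{3,3}`. -/
def IsPlanar {V : Type} (G : SimpleGraph V) : Prop :=
  ¬ IsMinor (⊤ : SimpleGraph (Fin 5)) G ∧ ¬ IsMinor (completeBipartiteGraph (Fin 3) (Fin 3)) G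

/-- `c` is a proper colouring of `G` from the lists `L`. -/
def IsListColouring {V C : Type} (G : SimpleGraph V) (L : V → Finset C) (c : V → C) : Prop :=
  (∀ v, c v ∈ L v) ∧ ∀ u v, G.Adj u v → c u ≠ c v

/-- A fractional packing of lists of size `k`: a probability distribution on the list colourings
for which every colour of `L v` is the colour of `v` with probability `1 / k`. -/
def HasFractionalPacking {V C : Type} (G : SimpleGraph V) (k : ℕ) (L : V → Finset C) : Prop :=
  ∃ P : PMF (V → C), (∀ c ∈ P.support, IsListColouring G L c) ∧
    ∀ v, ∀ x ∈ L v, P.toOuterMeasure {c | c v = x} = (k : ENNReal)⁻¹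

/-- The fractional list packing number: the least `k ≥ 1` such that every assignment of lists of
size `k` has a fractional packing. -/
noncomputable def fractionalListPackingNumber {V : Type} (G : SimpleGraph V) : ℕ :=
  sInf {k | 1 ≤ k ∧ ∀ (C : Type) (L : V → Finset C), (∀ v, (L v).card = k) →
    HasFractionalPacking G k L}

open Pool.Agent.MP1ed552

/-- the integral packing, colours in `ℕ` -/
lemma packing_nat {V : Type} [Fintype V] (G : SimpleGraph V) (hp : IsPlanar G)
    (h3 : G.CliqueFree 3) (L : V → Finset ℕ) (hL : ∀ v, (L v).card = 4) :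
    ∃ c : Fin 4 → V → ℕ, (∀ i, IsListColouring G L (c i)) ∧
      ∀ v, Function.Injective (fun i => c i v) := by
  classical
  have hg : Good G (Set.univ : Set V) := by
    refine ⟨?_, ?_⟩
    · rintro ⟨f, -, h2, h3', h4⟩
      exact hp.1 ⟨f, h2, h3', fun i j hij => h4 i j (by simpa [RK5] using hij)⟩
    · rintro ⟨f, -, h2, h3', h4⟩
      apply hp.2
      refine ⟨fun i => Sum.elim (fun a => f (true, a)) (fun a => f (false, a)) i, ?_, ?_, ?_⟩
      · rintro (i | i) <;> exact h2 _
      · rintro (i | i) (j | j) hij
        · exact h3' _ _ (fun h => hij (by rw [(Prod.mk.inj h).2]))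
        · exact h3' _ _ (fun h => by simp at h)
        · exact h3' _ _ (fun h => by simp at h)
        · exact h3' _ _ (fun h => hij (by rw [(Prod.mk.inj h).2]))
      · rintro (i | i) (j | j) hij
        · simp at hij
        · exact h4 _ _ (by simp [RK33])
        · exact h4 _ _ (by simp [RK33])
        · simp at hij
  obtain ⟨c, h1, h2, h4⟩ := packing (two_of_good h3 hg) L hL
  exact ⟨c, fun i => ⟨h1 i, h2 i⟩, fun v i j hij => by
    by_contra hne
    exact h4 i j v hne hij⟩

/-- the integral packing, any colours -/
lemma packing_any {V C : Type} [Fintype V] (G : SimpleGraph V) (hp : IsPlanar G)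
    (h3 : G.CliqueFree 3) (L : V → Finset C) (hL : ∀ v, (L v).card = 4) :
    ∃ c : Fin 4 → V → C, (∀ i, IsListColouring G L (c i)) ∧
      ∀ v, Function.Injective (fun i => c i v) := by
  classical
  set U : Finset C := Finset.univ.biUnion L with hU
  have hLU : ∀ v, L v ⊆ U := fun v => Finset.subset_biUnion_of_mem L (Finset.mem_univ v)
  let e : U ≃ Fin U.card := U.equivFin
  let g : C → ℕ := fun x => if h : x ∈ U then (e ⟨x, h⟩ : ℕ) else 0
  have hginj : ∀ x ∈ U, ∀ y ∈ U, g x = g y → x = y := by
    intro x hx y hy hxy
    simp only [g, hx, hy, dif_pos] at hxy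
    have := e.injective (Fin.ext hxy)
    exact congrArg Subtype.val this
  obtain ⟨c, hc1, hc2⟩ := packing_nat G hp h3 (fun v => (L v).image g) (by
    intro v
    rw [Finset.card_image_of_injOn, hL v]
    intro x hx y hy hxy
    exact hginj x (hLU v hx) y (hLU v hy) hxy)
  have hex : ∀ i v, ∃ x ∈ L v, g x = c i v := by
    intro i v
    have := (hc1 i).1 v
    rwa [Finset.mem_image] at this
  choose d hd1 hd2 using hex
  refine ⟨d, fun i => ⟨hd1 i, fun u v huv h => (hc1 i).2 u v huv ?_⟩, fun v i j hij => ?_⟩
  · rw [← hd2, ← hd2, h]
  · apply hc2 v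
    have hij' : d i v = d j v := hij
    show c i v = c j v
    rw [← hd2, ← hd2, hij']

/-- an integral packing gives a fractional packing -/
lemma fractional_of_integral {V C : Type} (G : SimpleGraph V) (L : V → Finset C)
    (hL : ∀ v, (L v).card = 4) (c : Fin 4 → V → C) (hc : ∀ i, IsListColouring G L (c i))
    (hinj : ∀ v, Function.Injective (fun i => c i v)) : HasFractionalPacking G 4 L := by
  classical
  refine ⟨(PMF.uniformOfFintype (Fin 4)).map c, ?_, ?_⟩
  · intro d hd
    rw [PMF.mem_support_map_iff] at hd
    obtain ⟨i, -, rfl⟩ := hd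
    exact hc i
  · intro v x hx
    have himg : (Finset.univ : Finset (Fin 4)).image (fun i => c i v) = L v := by
      apply Finset.eq_of_subset_of_card_le
      · intro z hz
        rw [Finset.mem_image] at hz
        obtain ⟨i, -, rfl⟩ := hz
        exact (hc i).1 v
      · rw [Finset.card_image_of_injective _ (hinj v), hL v]
        simp
    rw [← himg, Finset.mem_image] at hx
    obtain ⟨i, -, rfl⟩ := hx
    rw [PMF.toOuterMeasure_map_apply]
    have hset : (c ⁻¹' {d | d v = c i v}) = {i} := by
      ext j
      simp only [Set.mem_preimage, Set.mem_ofPred_eq, Set.mem_singleton_iff]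
      constructor
      · intro hj; exact hinj v hj
      · rintro rfl; rfl
    rw [hset, PMF.toOuterMeasure_apply_singleton, PMF.uniformOfFintype_apply]
    simp

/-- **Full answer to Q1 (positive).** A planar triangle-free graph has fractional list packing
number at most `4`; moreover, from any lists with four colours each there are four proper list
colourings which give every vertex four different colours. -/
theorem result (V : Type) [Fintype V] (G : SimpleGraph V) (hplanar : IsPlanar G)
    (htriangle : G.CliqueFree 3) :
    fractionalListPackingNumber G ≤ 4 ∧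
    ∀ (C : Type) (L : V → Finset C), (∀ v, (L v).card = 4) →
      HasFractionalPacking G 4 L ∧
      ∃ c : Fin 4 → V → C, (∀ i, IsListColouring G L (c i)) ∧
        ∀ v, Function.Injective (fun i => c i v) := by
  have key : ∀ (C : Type) (L : V → Finset C), (∀ v, (L v).card = 4) →
      HasFractionalPacking G 4 L ∧
      ∃ c : Fin 4 → V → C, (∀ i, IsListColouring G L (c i)) ∧
        ∀ v, Function.Injective (fun i => c i v) := by
    intro C L hL
    obtain ⟨c, h1, h2⟩ := packing_any G hplanar htriangle L hL
    exact ⟨fractional_of_integral G L hL c h1 h2, c, h1, h2⟩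
  refine ⟨?_, key⟩
  apply Nat.sInf_le
  exact ⟨by norm_num, fun C L hL => (key C L hL).1⟩

end Pool.Agent.Results.MP_1ed552_co.ListPacking
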